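import Pool.Agent.H79.U.GV

set_option autoImplicit false

/-!
# Primes `3 n² + 3 n + k` with `n` in an arbitrary set, for almost all `k` in all intervals of length `X^(3/2) (log X)^C`

The question is whether `(n + 1)³ - n³ = 3 n² + 3 n + 1` is prime infinitely often. Let `F_j(n) = a_j n² + b_j n`
(for instance `3 n² + 3 n` for all `j ≤ r`) be quadratic polynomials, and let `S` be an ARBITRARY set of integers in
`(X, 2 X]`. In EVERY interval `(κ, κ + Λ]` with `Λ ≥ X^(3/2) (log X)^C` between `-X² / 4` and `X²` (for instance around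
the constant term `1` of the problem), for all but `Λ^r / (log X)^A` of the vectors `(k_1, …, k_r)` of elements of this
interval, the number of the `n` in `S` for which `F_1(n) + k_1, …, F_r(n) + k_r` are all primes is equal, up to
`X / (log X)^A`, to the number of the `n` in `S` for which these numbers have no prime factor `≤ z`, every `n` counted
with the weight `∏_j (∏_{p ≤ z} (1 - 1 / p)⁻¹ / log (F_j(n) + k_j))`. Here `z` is a power of `log X`.

Proof. The integers `n` are divided into blocks of length `Y = X^(1/2) (log X)^C`. The numbers `F(n) + k`, for `n` in one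
block and `k` in one interval of length `X Y`, are in one window of length `≪ X Y`. The mean square over `k` of the sum
over the block is at most the integral of `|S|² |A|²`, where `S` is the exponential sum over the primes minus their
sieve model in this window and `A` is the exponential sum over the block with arbitrary coefficients; its cube is at most
`(∫ |S|²)² sup |S|² ∫ |A|⁶`. For almost all blocks the supremum of `|S|` is smaller than the length of the window by
any power of `log X`, and the sixth moment of `A` is at most `(log X)^3 Y⁵ / X`, since `Y² ≥ X` (number of the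
solutions of `∑ F(n_i) = ∑ F(m_i)` in a short block, from the quadratic system in three variables). The tuples follow
by induction, because the weights are arbitrary.
-/

namespace Pool.Agent.Results.MP_22d6bb_nt.ArbitraryArgumentsThreeHalves

open Finset

/-- the polynomial `a n² + b n` -/
def value (a : ℕ) (b : ℤ) (n : ℕ) : ℤ := (a : ℤ) * (n : ℤ) ^ 2 + b * n

/-- the number of the `n ∈ S` for which all the `a_j n² + b_j n + k_j` are (positive) primes -/
def primeCount {r : ℕ} (a : Fin r → ℕ) (b : Fin r → ℤ) (S : Finset ℕ) (k : Fin r → ℤ) : ℕ :=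
  (S.filter (fun n => ∀ j, (value (a j) (b j) n + k j).toNat.Prime)).card

/-- the product of the `(1 - 1 / p)⁻¹` over the primes `p ≤ z` -/
noncomputable def mertens (z : ℕ) : ℝ := ∏ p ∈ (Icc 1 z).filter Nat.Prime, (1 - 1 / (p : ℝ))⁻¹

open Classical in
/-- the number of the `n ∈ S` for which no `a_j n² + b_j n + k_j` has a prime factor `≤ z`, with the weights
`∏_j (mertens z / log (a_j n² + b_j n + k_j))` -/
noncomputable def sieveCount {r : ℕ} (z : ℕ) (a : Fin r → ℕ) (b : Fin r → ℤ) (S : Finset ℕ) (k : Fin r → ℤ) : ℝ :=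
  ∑ n ∈ S, if ∀ j, ∀ p : ℕ, p.Prime → p ≤ z → ¬ (p : ℤ) ∣ value (a j) (b j) n + k j
    then ∏ j, (mertens z / Real.log ((value (a j) (b j) n + k j : ℤ) : ℝ)) else 0

/-- Let `r`, `A` and the polynomials `a_j n² + b_j n`, `j < r`, be given, `a_j ≥ 1`. For `X ≥ X₀`, for every set `S` of
integers in `(X, 2 X]` and every interval `(κ, κ + Λ]` in `[-X²/4, X²]` with `Λ ≥ X^(3/2) (log X)^C`, the formula holds
with the error `X / (log X)^A` for all but at most `Λ^r / (log X)^A` of the vectors `k` of integers of this interval. -/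
theorem result (r A : ℕ) (a : Fin r → ℕ) (b : Fin r → ℤ) (ha : ∀ j, 1 ≤ a j) : ∃ C E : ℕ, ∀ E' : ℕ, ∃ X₀ : ℕ,
    ∀ X : ℕ, X₀ ≤ X → ∀ z : ℕ, (Real.log X) ^ E ≤ z → (z : ℝ) ≤ (Real.log X) ^ E' →
    ∀ S : Finset ℕ, S ⊆ Ioc X (2 * X) → ∀ (κ : ℤ) (Λ : ℕ), (X : ℝ) ^ (3 / 2 : ℝ) * (Real.log X) ^ C ≤ Λ →
    -(X : ℤ) ^ 2 ≤ 4 * κ → κ + Λ ≤ (X : ℤ) ^ 2 →
    (Set.ncard {k : Fin r → ℤ | (∀ j, κ < k j ∧ k j ≤ κ + Λ) ∧
      X / (Real.log X) ^ A < |(primeCount a b S k : ℝ) - sieveCount z a b S k|} : ℝ) ≤ (Λ : ℝ) ^ r / (Real.log X) ^ A := by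
  classical
  obtain ⟨C, E, h1⟩ := H79.U.tuples r A a b ha
  refine ⟨C, E, fun E' => ?_⟩
  obtain ⟨X₁, h2⟩ := h1 E'
  refine ⟨max X₁ (8 * ∑ j, (b j).natAbs + 4), ?_⟩
  intro X hX z hz1 hz2 S hS κ Λ hΛ hκ1 hκ2
  have c1 : X₁ ≤ X := (le_max_left _ _).trans hX
  have c2 : 8 * ∑ j, (b j).natAbs + 4 ≤ X := (le_max_right _ _).trans hX
  have h3 := h2 X c1 z hz1 hz2 κ Λ hΛ hκ1 hκ2 (fun n => if n ∈ S then 1 else 0) (by
    intro n
    split_ifs <;> norm_num)
  have hb : ∀ j, 8 * |b j| ≤ X := by
    intro j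
    have e1 : |b j| = ((b j).natAbs : ℤ) := Int.abs_eq_natAbs (b j)
    have e2 : (b j).natAbs ≤ ∑ j, (b j).natAbs := single_le_sum (f := fun j => (b j).natAbs) (fun _ _ => Nat.zero_le _) (mem_univ j)
    rw [e1]
    omega
  have hX4 : 4 ≤ X := by omega
  have hW : mertens z = (H373R2.T7.Vz z)⁻¹ := by
    unfold mertens H373R2.T7.Vz H373R2.T7.pz
    rw [prod_inv_distrib]
  refine le_trans ?_ h3
  have hsub : {k : Fin r → ℤ | (∀ j, κ < k j ∧ k j ≤ κ + Λ) ∧
      X / (Real.log X) ^ A < |(primeCount a b S k : ℝ) - sieveCount z a b S k|} ⊆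
      (((Fintype.piFinset (fun _ : Fin r => Ioc κ (κ + Λ))).filter (fun k =>
      X / (Real.log X) ^ A < |∑ n ∈ Ioc X (2 * X), (if n ∈ S then 1 else 0) * (∏ j, H79.U.pr1 (H79.U.FF (a j) (b j) n + k j) -
        ∏ j, H79.U.mu1 z (H79.U.FF (a j) (b j) n + k j))|) : Finset (Fin r → ℤ)) : Set (Fin r → ℤ)) := by
    intro k hk
    obtain ⟨hk1, hk2⟩ := hk
    rw [mem_coe, mem_filter, Fintype.mem_piFinset]
    refine ⟨fun j => mem_Ioc.2 (hk1 j), ?_⟩
    have hpos : ∀ n ∈ S, ∀ j, 1 ≤ value (a j) (b j) n + k j := by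
      intro n hn j
      have hn' := mem_Ioc.1 (hS hn)
      have e1 := H79.U.low (a j) X n (b j) (k j) (ha j) (hb j) hn'.1.le (by linarith [(hk1 j).1])
      have e3 : (4 : ℤ) ≤ X := by exact_mod_cast hX4
      have e4 : value (a j) (b j) n = H79.U.FF (a j) (b j) n := rfl
      rw [e4]
      nlinarith
    have e0 : ∑ n ∈ Ioc X (2 * X), (if n ∈ S then (1 : ℝ) else 0) * (∏ j, H79.U.pr1 (H79.U.FF (a j) (b j) n + k j) -
        ∏ j, H79.U.mu1 z (H79.U.FF (a j) (b j) n + k j)) = (primeCount a b S k : ℝ) - sieveCount z a b S k := by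
      have e1 : ∑ n ∈ Ioc X (2 * X), (if n ∈ S then (1 : ℝ) else 0) * (∏ j, H79.U.pr1 (H79.U.FF (a j) (b j) n + k j) -
          ∏ j, H79.U.mu1 z (H79.U.FF (a j) (b j) n + k j)) =
          ∑ n ∈ S, (∏ j, H79.U.pr1 (H79.U.FF (a j) (b j) n + k j) - ∏ j, H79.U.mu1 z (H79.U.FF (a j) (b j) n + k j)) := by
        simp_rw [ite_mul, one_mul, zero_mul]
        rw [← sum_filter]
        congr 1
        ext n
        rw [mem_filter]
        exact ⟨fun h => h.2, fun h => ⟨hS h, h⟩⟩
      rw [e1, sum_sub_distrib]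
      congr 1
      · unfold primeCount
        rw [card_filter]
        push_cast
        refine sum_congr rfl fun n _ => ?_
        unfold H79.U.pr1
        rw [prod_ite_zero]
        simp only [mem_univ, true_imp_iff, prod_const_one]
        rfl
      · unfold sieveCount
        refine sum_congr rfl fun n hn => ?_
        have e2 : ∀ j, H79.U.mu1 z (H79.U.FF (a j) (b j) n + k j) =
            if ∀ p : ℕ, p.Prime → p ≤ z → ¬ (p : ℤ) ∣ value (a j) (b j) n + k j
              then mertens z / Real.log ((value (a j) (b j) n + k j : ℤ) : ℝ) else 0 := by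
          intro j
          have hp := hpos n hn j
          have e4 : value (a j) (b j) n = H79.U.FF (a j) (b j) n := rfl
          rw [e4] at hp ⊢
          unfold H79.U.mu1 H373R2.T7.lamzI H373R2.T7.lamz
          rw [if_pos hp, hW]
          have e5 : (∀ p ∈ H373R2.T7.pz z, ¬ p ∣ (H79.U.FF (a j) (b j) n + k j).toNat) ↔
              (∀ p : ℕ, p.Prime → p ≤ z → ¬ (p : ℤ) ∣ H79.U.FF (a j) (b j) n + k j) := by
            have e6 : ∀ p : ℕ, p ∣ (H79.U.FF (a j) (b j) n + k j).toNat ↔ (p : ℤ) ∣ H79.U.FF (a j) (b j) n + k j := by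
              intro p
              rw [← Int.natCast_dvd_natCast, Int.toNat_of_nonneg (by omega)]
            constructor
            · intro h p hp1 hp2 hd
              exact h p (H373R2.T7.mem_pz.2 ⟨hp2, hp1⟩) ((e6 p).2 hd)
            · intro h p hp1 hd
              have hp2 := H373R2.T7.mem_pz.1 hp1
              exact h p hp2.2 hp2.1 ((e6 p).1 hd)
          by_cases hc : ∀ p ∈ H373R2.T7.pz z, ¬ p ∣ (H79.U.FF (a j) (b j) n + k j).toNat
          · rw [if_pos hc, if_pos (e5.1 hc)]
          · rw [if_neg hc, if_neg (fun h => hc (e5.2 h)), zero_div]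
        rw [prod_congr rfl fun j _ => e2 j, prod_ite_zero]
        simp only [mem_univ, true_imp_iff]
    rw [e0]
    exact hk2
  have e1 := Set.ncard_le_ncard hsub (Finset.finite_toSet _)
  rw [Set.ncard_coe_finset] at e1
  exact_mod_cast e1

end Pool.Agent.Results.MP_22d6bb_nt.ArbitraryArgumentsThreeHalves
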