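import Pool.Agent.H14.P3Q.Dense
import Pool.Agent.H14.VC.Rough
import Pool.Agent.H16.P5.Main

/-!
# MP_22d6bb_nt: differences of consecutive cubes at differences of arbitrary sets (helper14)

(1) Power saving: sets with only `N ^ (1 - 1 / 1000000)` elements: at most THREE prime factors
(`H16.P5.quad_shift`).
(2) Sets of density at least `(log N) ^ (-1 + ε)`: at most THREE prime factors, larger ones, and a
positive proportion up to a logarithm.
(3) Sets with only `N ^ (1 - κ)` elements: at most `r` prime factors, several differences at once.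
-/

set_option autoImplicit false

namespace Pool.Agent.Results.MP_22d6bb_nt.DifferenceSets

open Finset Polynomial
open Pool.Agent.H14.SK (AP)
open Pool.Agent.H14.VC

/-- the difference of consecutive cubes -/
def cuban (k : ℤ) : ℤ := (k + 1) ^ 3 - k ^ 3

/-- all prime factors of the integer `m` are larger than `y` and there are at most `r` of them
(counted with multiplicity) -/
def AlmostPrime (y : ℝ) (r : ℕ) (m : ℤ) : Prop :=
  (∀ p : ℕ, p.Prime → (p : ℤ) ∣ m → y < p) ∧ ArithmeticFunction.cardFactors m.natAbs ≤ r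

/-- the polynomial `cuban (h + j X)` -/
noncomputable def cp (h j : ℤ) : ℤ[X] := C (3 * j ^ 2) * X ^ 2 + C ((6 * h + 3) * j) * X + C (3 * h ^ 2 + 3 * h + 1)

lemma cp_eval (h j n : ℤ) : (cp h j).eval n = cuban (h + j * n) := by
  unfold cp cuban
  simp
  ring

lemma cp_deg (h j : ℤ) : (cp h j).natDegree ≤ 2 := natDegree_quadratic_le

lemma cp_coeff (h j : ℤ) (i : ℕ) : |(cp h j).coeff i| ≤
    max (|3 * j ^ 2|) (max (|(6 * h + 3) * j|) (|3 * h ^ 2 + 3 * h + 1|)) := by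
  have e : (cp h j).coeff i = if i = 2 then 3 * j ^ 2 else if i = 1 then (6 * h + 3) * j else
      if i = 0 then 3 * h ^ 2 + 3 * h + 1 else 0 := by
    unfold cp
    simp only [coeff_add, coeff_C_mul, coeff_X_pow, coeff_X, coeff_C]
    rcases i with _ | _ | _ | i
    · simp
    · simp
    · simp
    · simp
  rw [e]
  split_ifs
  · exact le_max_left _ _
  · exact (le_max_left _ _).trans (le_max_right _ _)
  · exact (le_max_right _ _).trans (le_max_right _ _)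
  · rw [abs_zero]
    exact (abs_nonneg _).trans (le_max_left _ _)

open Classical in
/-- differences of sets with at least `N ^ (1 - κ)` elements, and differences of consecutive cubes -/
theorem main (J : ℕ) : ∃ κ : ℝ, 0 < κ ∧ ∃ r : ℕ, ∀ ε : ℝ, 0 < ε → ∃ N₀ : ℕ, ∀ N : ℕ, N₀ ≤ N →
    ∀ h : ℤ, |h| ≤ N → (∀ p : ℕ, p.Prime → (p : ℝ) ≤ (N : ℝ) ^ κ → ¬ (p : ℤ) ∣ cuban h) →
    ∀ (u : ℕ) (A : Finset ℕ), A ⊆ Ioc u (u + N) → (N : ℝ) ^ (1 - κ) ≤ A.card →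
      (A.card : ℝ) ^ 2 * (N : ℝ) ^ (-ε) ≤
        ((A ×ˢ A).filter (fun x : ℕ × ℕ => x.1 < x.2 ∧ ∀ j ∈ Icc 1 J,
          AlmostPrime ((N : ℝ) ^ κ) r (cuban (h + j * ((x.2 : ℤ) - x.1))) ∧
          AlmostPrime ((N : ℝ) ^ κ) r (cuban (h - j * ((x.2 : ℤ) - x.1))))).card := by
  obtain ⟨κ, hκ, hκ1, h1⟩ := poly_vc J (J * 2)
  obtain ⟨r, hr⟩ := h1 κ hκ le_rfl 3
  refine ⟨κ, hκ, r, ?_⟩
  intro ε hε
  obtain ⟨N₀, hN₀⟩ := hr ε hε
  refine ⟨max N₀ (max 9 J), ?_⟩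
  intro N hN h hh hgood u A hA hcard
  have hN9 : (9 : ℤ) ≤ N := by
    have : 9 ≤ N := (le_max_left _ _).trans ((le_max_right _ _).trans hN)
    exact_mod_cast this
  have hNJ : J ≤ N := (le_max_right _ _).trans ((le_max_right _ _).trans hN)
  have h2 := hN₀ N ((le_max_left _ _).trans hN) (fun i : Fin J => cp h ((i : ℕ) + 1 : ℕ))
    (by
      refine (sum_le_sum (g := fun _ => 2) fun i _ => cp_deg _ _).trans ?_
      rw [sum_const, card_univ, Fintype.card_fin, smul_eq_mul])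
    (by
      intro i k
      refine (cp_coeff _ _ _).trans ?_
      have hi : (((i : ℕ) + 1 : ℕ) : ℤ) ≤ N := by
        have := i.2
        have : (i : ℕ) + 1 ≤ N := by omega
        exact_mod_cast this
      have hi0 : (0 : ℤ) ≤ (((i : ℕ) + 1 : ℕ) : ℤ) := by positivity
      obtain ⟨j, hj⟩ : ∃ j : ℤ, j = (((i : ℕ) + 1 : ℕ) : ℤ) := ⟨_, rfl⟩
      rw [← hj] at hi hi0 ⊢
      obtain ⟨hl, hu⟩ := abs_le.1 hh
      have hN2 : (N : ℤ) ^ 3 = N * N * N := by ring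
      rw [hN2]
      have hNN : (0 : ℤ) ≤ (N : ℤ) * N := by positivity
      have hNNN : 9 * ((N : ℤ) * N) ≤ N * N * N := by nlinarith
      apply max_le
      · rw [abs_of_nonneg (by positivity)]
        nlinarith
      · apply max_le
        · rw [abs_mul, abs_of_nonneg hi0]
          have h6 : |6 * h + 3| ≤ 9 * N := by
            rw [abs_le]
            constructor <;> linarith
          calc |6 * h + 3| * j ≤ (9 * N) * N := mul_le_mul h6 hi hi0 (by positivity)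
            _ ≤ _ := by nlinarith
        · rw [abs_le]
          constructor
          · nlinarith
          · nlinarith)
    0 (by simp)
    (by
      intro i p hp hpN hd
      rw [cp_eval, mul_zero, add_zero] at hd
      exact hgood p hp hpN hd)
    u A hA hcard
  refine h2.trans ?_
  apply Nat.cast_le.2
  apply card_le_card
  intro x hx
  rw [mem_filter] at hx ⊢
  refine ⟨hx.1, hx.2.1, ?_⟩
  intro j hj
  rw [mem_Icc] at hj
  have h3 := hx.2.2 ⟨j - 1, by omega⟩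
  simp only [cp_eval] at h3
  have e : (((j - 1 : ℕ) + 1 : ℕ) : ℤ) = j := by
    congr 1
    omega
  rw [e] at h3
  have e1 : h + (j : ℤ) * (0 + ((x.2 : ℤ) - x.1)) = h + j * ((x.2 : ℤ) - x.1) := by ring
  have e2 : h + (j : ℤ) * (0 - ((x.2 : ℤ) - x.1)) = h - j * ((x.2 : ℤ) - x.1) := by ring
  rw [e1, e2] at h3
  exact h3

lemma good_imp (N : ℕ) (hN : 2 ≤ N) (m : ℤ) (h : Pool.Agent.H14.P3.Good3 N m.natAbs) :
    AlmostPrime ((N : ℝ) ^ (38 / 100 : ℝ)) 3 m := by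
  have hN1 : (1 : ℝ) < N := by exact_mod_cast (by omega : 1 < N)
  refine ⟨?_, h.2⟩
  intro p hp hd
  refine lt_of_lt_of_le ?_ (h.1 p hp (Int.natCast_dvd.1 hd))
  exact Real.rpow_lt_rpow_of_exponent_lt hN1 (by norm_num)

open Classical in
/-- sets of density at least `(log N) ^ (-1 + ε)`: at most three prime factors -/
theorem three : ∀ ε : ℝ, 0 < ε → ∃ (C : ℝ) (N₀ : ℕ), 0 < C ∧ ∀ N : ℕ, N₀ ≤ N →
    ∀ (A : Finset ℕ) (α : ℝ), A ⊆ Finset.Icc 1 N → 0 < α → Real.log N ^ (-(1 - ε)) ≤ α →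
      α * N ≤ A.card → ∀ h : ℤ, |h| ≤ N →
      (∀ p : ℕ, p.Prime → (p : ℝ) ≤ C * α ^ (-(1 + ε)) → ¬ (p : ℤ) ∣ cuban h) →
      Real.exp (-(C * α ^ (-(1 + ε)))) * N ^ 2 / Real.log N ≤
        (((A ×ˢ A).filter (fun x => x.1 < x.2 ∧
          AlmostPrime ((N : ℝ) ^ (38 / 100 : ℝ)) 3 (cuban (h + ((x.2 : ℤ) - x.1))))).card : ℝ) := by
  intro ε hε
  have e : ∀ n : ℤ, Pool.Agent.H14.P3Q.qf 3 3 1 n = cuban n := by
    intro n
    unfold Pool.Agent.H14.P3Q.qf cuban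
    ring
  obtain ⟨C, N₀, hC, h0⟩ := Pool.Agent.H14.P3Q.quad3 3 3 1 (by
    rintro ⟨x, hx⟩
    nlinarith [mul_self_nonneg x]) ε hε
  refine ⟨C, max N₀ 2, hC, fun N hN A α hA hα hαL hcard h hh hhp => ?_⟩
  have hN2 : 2 ≤ N := (le_max_right _ _).trans hN
  refine (h0 N ((le_max_left _ _).trans hN) A α hA hα hαL hcard h hh (by
    intro p hp hpC
    rw [e]
    exact hhp p hp hpC)).trans ?_
  apply Nat.cast_le.2
  apply card_le_card
  intro x hx
  rw [mem_filter] at hx ⊢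
  refine ⟨hx.1, hx.2.1, good_imp N hN2 _ ?_⟩
  rw [← e]
  exact hx.2.2

open Classical in
/-- power saving: at most three prime factors -/
theorem power (ε : ℝ) (hε : 0 < ε) :
    ∃ N₀ : ℕ, ∀ N : ℕ, N₀ ≤ N → ∀ h : ℤ, |h| ≤ N →
      (∀ p : ℕ, p.Prime → (p : ℝ) ≤ (N : ℝ) ^ (1 / 500000 : ℝ) → ¬ (p : ℤ) ∣ cuban h) →
      ∀ (u : ℕ) (A : Finset ℕ), A ⊆ Ioc u (u + N) → (N : ℝ) ^ (1 - 1 / 1000000 : ℝ) ≤ A.card →
        (A.card : ℝ) ^ 2 * (N : ℝ) ^ (-ε) ≤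
          (((A ×ˢ A).filter (fun x => x.1 ≠ x.2 ∧
            AlmostPrime ((N : ℝ) ^ (1 / 10 : ℝ)) 3 (cuban (h + ((x.2 : ℤ) - x.1))))).card : ℝ) := by
  have e : ∀ n : ℤ, 3 * n ^ 2 + 3 * n + 1 = cuban n := by
    intro n
    unfold cuban
    ring
  obtain ⟨N₀, hN₀⟩ := Pool.Agent.H16.P5.quad_shift 3 3 1 (by
    rintro ⟨x, hx⟩
    nlinarith [mul_self_nonneg x]) ε hε
  refine ⟨N₀, fun N hN h hh hp u A hA hcard => ?_⟩
  refine (hN₀ N hN h hh (by
    intro p hpp hpN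
    rw [e]
    exact hp p hpp hpN) u A hA hcard).trans ?_
  apply Nat.cast_le.2
  apply card_le_card
  intro x hx
  rw [mem_filter] at hx ⊢
  refine ⟨hx.1, hx.2.1, ?_⟩
  have h3 := hx.2.2
  rw [e] at h3
  exact h3

open Classical in
/-- **Differences of consecutive cubes at the differences of a set.** -/
theorem result :
    -- (1) power saving: at most three prime factors
    (∀ ε : ℝ, 0 < ε → ∃ N₀ : ℕ, ∀ N : ℕ, N₀ ≤ N → ∀ h : ℤ, |h| ≤ N →
      (∀ p : ℕ, p.Prime → (p : ℝ) ≤ (N : ℝ) ^ (1 / 500000 : ℝ) → ¬ (p : ℤ) ∣ cuban h) →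
      ∀ (u : ℕ) (A : Finset ℕ), A ⊆ Ioc u (u + N) → (N : ℝ) ^ (1 - 1 / 1000000 : ℝ) ≤ A.card →
        (A.card : ℝ) ^ 2 * (N : ℝ) ^ (-ε) ≤
          (((A ×ˢ A).filter (fun x => x.1 ≠ x.2 ∧
            AlmostPrime ((N : ℝ) ^ (1 / 10 : ℝ)) 3 (cuban (h + ((x.2 : ℤ) - x.1))))).card : ℝ)) ∧
    -- (2) sets of density at least `(log N) ^ (-1 + ε)`: at most three prime factors
    (∀ ε : ℝ, 0 < ε → ∃ (C : ℝ) (N₀ : ℕ), 0 < C ∧ ∀ N : ℕ, N₀ ≤ N →
      ∀ (A : Finset ℕ) (α : ℝ), A ⊆ Finset.Icc 1 N → 0 < α → Real.log N ^ (-(1 - ε)) ≤ α →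
        α * N ≤ A.card → ∀ h : ℤ, |h| ≤ N →
        (∀ p : ℕ, p.Prime → (p : ℝ) ≤ C * α ^ (-(1 + ε)) → ¬ (p : ℤ) ∣ cuban h) →
        Real.exp (-(C * α ^ (-(1 + ε)))) * N ^ 2 / Real.log N ≤
          (((A ×ˢ A).filter (fun x => x.1 < x.2 ∧
            AlmostPrime ((N : ℝ) ^ (38 / 100 : ℝ)) 3 (cuban (h + ((x.2 : ℤ) - x.1))))).card : ℝ)) ∧
    -- (3) power saving: sets with at least `N ^ (1 - κ)` elements, every shift `h` without small
    -- obstruction, the multiples `j (b - a)` with `1 ≤ j ≤ J`, both signs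
    (∀ J : ℕ, ∃ κ : ℝ, 0 < κ ∧ ∃ r : ℕ, ∀ ε : ℝ, 0 < ε → ∃ N₀ : ℕ, ∀ N : ℕ, N₀ ≤ N →
      ∀ h : ℤ, |h| ≤ N → (∀ p : ℕ, p.Prime → (p : ℝ) ≤ (N : ℝ) ^ κ → ¬ (p : ℤ) ∣ cuban h) →
      ∀ (u : ℕ) (A : Finset ℕ), A ⊆ Ioc u (u + N) → (N : ℝ) ^ (1 - κ) ≤ A.card →
        (A.card : ℝ) ^ 2 * (N : ℝ) ^ (-ε) ≤
          ((A ×ˢ A).filter (fun x : ℕ × ℕ => x.1 < x.2 ∧ ∀ j ∈ Icc 1 J,
            AlmostPrime ((N : ℝ) ^ κ) r (cuban (h + j * ((x.2 : ℤ) - x.1))) ∧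
            AlmostPrime ((N : ℝ) ^ κ) r (cuban (h - j * ((x.2 : ℤ) - x.1))))).card) :=
  ⟨power, three, main⟩

end Pool.Agent.Results.MP_22d6bb_nt.DifferenceSets
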