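import Pool.Agent.H31.GP.DigitShort

set_option autoImplicit false

/-!
# The digits of the integers `k` of a short interval for which `(k + 1) ^ 3 - k ^ 3` is almost prime

Let `q ≥ 2`, and let `T` be the power of `q` with `T ≤ √N < q T`. It is shown, uniformly for all intervals `[M, M + N)` with
`M ≤ N ^ A` (`A` is arbitrary, so the intervals may be shorter than any given power of their end points), that the integers
`k` of the interval for which `3 k ^ 2 + 3 k + 1 = (k + 1) ^ 3 - k ^ 3` has no prime factor `≤ y`, where `y` is a small power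
of `N`, do not correlate with any function `Φ (k) = ∑ i < m, G i (k % T) * H i (k / T)` for ARBITRARY `G i`, `H i`
with values in the unit disc: the mean value of `Φ` along these `k` is up to `ε` the mean value of `Φ` over the `k` of the
interval for which `3 k ^ 2 + 3 k + 1` has no prime factor `≤ w`, where `w` is a constant which depends on `q`, `m`, `A`
and `ε` only. Every function which is computed by a finite automaton from the digits of `k` is of this kind. In particular
the sum of the digits of `k` is equidistributed in the residue classes modulo `m` along these `k` if `m` is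
coprime to `q - 1`.

Proof. The general theorem `Pool.Agent.H31.GP.digitWin` holds uniformly for all polynomials of bounded degree, with
coefficients bounded by a power of `N`, and without fixed prime divisors. Let `f` be the difference of the indicator function
of the first set and of the indicator function of the second one, multiplied by the product of `1 - ρ (p) / p` over the primes
`w < p ≤ y`. The bilinear sum of `G (a) H (b) f (a + T b)` is estimated with Cauchy's inequality, and the sums over `a` of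
`f (a + T b) f (a + T b')` by the fundamental lemma for the polynomials `F (X + T b) F (X + T b')`; their singular series
are estimated on average over `b` and `b'` with the help of resultants.
-/

namespace Pool.Agent.Results.MP_22d6bb_nt.DigitsInShortIntervals

open Finset Filter

open Classical in
/-- The integers `M ≤ k < M + N` for which all prime factors of `3 k ^ 2 + 3 k + 1` are larger than `y`. -/
noncomputable def rough (y M N : ℕ) : Finset ℕ :=
  (Ico M (M + N)).filter (fun k => ∀ p : ℕ, p.Prime → p ∣ 3 * k ^ 2 + 3 * k + 1 → y < p)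

/-- The product over the primes `p ≤ y` of `1 - ρ (p) / p`, where `ρ (p)` is the number of the residue classes `k` modulo `p`
with `p ∣ 3 k ^ 2 + 3 k + 1`. -/
noncomputable def V (y : ℕ) : ℝ := ∏ p ∈ (range (y + 1)).filter Nat.Prime,
  (1 - (((range p).filter (fun k => p ∣ 3 * k ^ 2 + 3 * k + 1)).card : ℝ) / p)

/-- The mean value of a function over a finite set. -/
noncomputable def mean (S : Finset ℕ) (g : ℕ → ℂ) : ℂ := (∑ n ∈ S, g n) / (S.card : ℂ)

/-- `Φ` is a sum of `m` products of a function of `n % T` and a function of `n / T`, all of modulus at most one. -/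
def SplitRank (T m : ℕ) (Φ : ℕ → ℂ) : Prop := ∃ G H : Fin m → ℕ → ℂ,
  (∀ i n, ‖G i n‖ ≤ 1) ∧ (∀ i n, ‖H i n‖ ≤ 1) ∧ ∀ n, Φ n = ∑ i, G i (n % T) * H i (n / T)

open Pool.Agent.H31 Polynomial

/-- the polynomial -/
noncomputable def cub : ℤ[X] := C 3 * X ^ 2 + C 3 * X + C 1

lemma RF_cub (p n : ℕ) : GP.RF cub p n ↔ p ∣ 3 * n ^ 2 + 3 * n + 1 := by
  unfold GP.RF cub
  simp only [eval_add, eval_mul, eval_C, eval_pow, eval_X]
  rw [← Int.natCast_dvd_natCast]
  push_cast
  rfl

lemma cub_deg : cub.natDegree ≤ 2 := by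
  unfold cub
  compute_degree

lemma sys_cub : GP.Sys cub 2 := by
  refine ⟨cub_deg, fun p hp => ⟨0, ?_⟩⟩
  rw [RF_cub]
  intro h
  simp at h
  exact hp.one_lt.ne' h

lemma coeff_cub (i : ℕ) : |cub.coeff i| ≤ 3 := by
  unfold cub
  rw [coeff_add, coeff_add, coeff_C_mul, coeff_C_mul, coeff_X_pow, coeff_X, coeff_C]
  rcases i with _ | _ | _ | i <;> simp

lemma rough_eq (y M N : ℕ) : rough y M N = GP.roughW cub y M N := by
  classical
  unfold rough GP.roughW
  apply filter_congr
  intro k _
  simp only [RF_cub]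

lemma V_eq (y : ℕ) : V y = GP.V cub y := by
  classical
  unfold V GP.V
  have e : (range (y + 1)).filter Nat.Prime = Pool.Agent.H373R2.T7.pz y := by
    ext p
    rw [mem_filter, mem_range, Pool.Agent.H373R2.T7.mem_pz, Nat.lt_succ_iff]
  rw [e]
  apply prod_congr rfl
  intro p _
  unfold GP.rh
  congr 4
  ext k
  rw [mem_filter, mem_range, GP.mem_ZF, RF_cub, one_mul, add_zero]

theorem result :
    (∀ q m A : ℕ, 2 ≤ q → 1 ≤ m → ∀ ε : ℝ, 0 < ε → ∃ w r : ℕ, 3 ≤ w ∧ ∀ᶠ N : ℕ in atTop, ∀ M : ℕ, M ≤ N ^ A →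
      ∀ y : ℕ, w ≤ y → y ^ r ≤ N →
        |((rough y M N).card : ℝ) - N * V y| ≤ ε * (N * V y) ∧
        (∀ z : ℕ, w ≤ z → z ≤ y → ∀ Φ : ℕ → ℂ, SplitRank (q ^ Nat.log q (Nat.sqrt N)) m Φ →
          ‖mean (rough y M N) Φ - mean (rough z M N) Φ‖ ≤ ε) ∧
        (m.Coprime (q - 1) → ∀ a : ℕ,
          |(((rough y M N).filter (fun k => (Nat.digits q k).sum ≡ a [MOD m])).card : ℝ) / (rough y M N).card - 1 / m| ≤ ε)) ∧
    (∀ q : ℕ, 2 ≤ q → ∀ (σ : Type) [Fintype σ] (δ : σ → ℕ → σ) (s₀ : σ) (τ : σ → ℂ), (∀ s, ‖τ s‖ ≤ 1) → ∀ j : ℕ,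
      SplitRank (q ^ j) (Fintype.card σ + 1) (fun n => τ ((Nat.digits q n).foldl δ s₀)) ∧
      SplitRank (q ^ j) (Fintype.card σ + 1) (fun n => τ ((Nat.digits q n).reverse.foldl δ s₀))) ∧
    (∀ j y M N : ℕ, 2 * (M + N) ≤ (y + 1) ^ j → ∀ k ∈ rough y M N, (3 * k ^ 2 + 3 * k + 1).primeFactorsList.length < 2 * j) := by
  classical
  refine ⟨?_, ?_, ?_⟩
  · intro q m A hq hm ε hε
    obtain ⟨w, r, hw, h⟩ := GP.digitWin q m 2 (A + 1) hq hm (by norm_num) ε hε
    refine ⟨w, r, hw, ?_⟩
    filter_upwards [h, eventually_ge_atTop 3] with N h1 hN M hM y hwy hyr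
    have hc : ∀ i, |cub.coeff i| ≤ (N : ℤ) ^ (A + 1) := by
      intro i
      refine (coeff_cub i).trans ?_
      have h3 : (3 : ℤ) ≤ N := by exact_mod_cast hN
      calc (3 : ℤ) ≤ N := h3
        _ = (N : ℤ) ^ 1 := (pow_one _).symm
        _ ≤ (N : ℤ) ^ (A + 1) := pow_le_pow_right₀ (by omega) (by omega)
    have hM' : M ≤ N ^ (A + 1) := hM.trans (Nat.pow_le_pow_right (by omega) (by omega))
    have h2 := h1 cub sys_cub hc M hM' y hwy hyr
    simp only [← rough_eq, ← V_eq] at h2
    exact h2
  · intro q hq σ _ δ s₀ τ hτ j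
    exact ⟨DG.aut_low q (by omega) δ s₀ τ hτ j, DG.aut_high q (by omega) δ s₀ τ hτ j⟩
  · intro j y M N hj k hk
    unfold rough at hk
    rw [mem_filter, mem_Ico] at hk
    obtain ⟨⟨-, hkN⟩, hk2⟩ := hk
    have h1 : (y + 1) ^ (3 * k ^ 2 + 3 * k + 1).primeFactorsList.length ≤ 3 * k ^ 2 + 3 * k + 1 := by
      conv_rhs => rw [← Nat.prod_primeFactorsList (show 3 * k ^ 2 + 3 * k + 1 ≠ 0 by omega)]
      apply List.pow_card_le_prod
      intro p hp
      exact hk2 p (Nat.prime_of_mem_primeFactorsList hp) (Nat.dvd_of_mem_primeFactorsList hp)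
    by_contra h
    push Not at h
    have h2 : (y + 1) ^ (2 * j) ≤ 3 * k ^ 2 + 3 * k + 1 := le_trans (Nat.pow_le_pow_right (by omega) h) h1
    have h3 : 2 * (k + 1) ≤ (y + 1) ^ j := by omega
    have h4 : (2 * (k + 1)) ^ 2 ≤ ((y + 1) ^ j) ^ 2 := Nat.pow_le_pow_left h3 2
    have h5 : ((y + 1) ^ j) ^ 2 = (y + 1) ^ (2 * j) := by rw [← pow_mul, mul_comm]
    nlinarith

end Pool.Agent.Results.MP_22d6bb_nt.DigitsInShortIntervals
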