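import Pool.Agent.H31.GP.MultExc

set_option autoImplicit false

/-!
# Multiplicative functions at the neighbours of the integers `k` for which `(k + 1) ^ 3 - k ^ 3` is almost prime

The integers `k ≤ N` for which `3 k ^ 2 + 3 k + 1 = (k + 1) ^ 3 - k ^ 3` has no prime factor `≤ y`, where `y` is a small power
of `N`, are considered. It is shown that `k + b` does not correlate with ANY multiplicative function `g` with values
in the unit disc (`g` may depend on `N` and `b`): the mean value of `g (k + b)` along these `k` is up to `ε` the mean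
value of `g (k + b)` over the `k ≤ N` for which `3 k ^ 2 + 3 k + 1` has no prime factor `≤ w`, where `w` is a constant. This
holds for every fixed `b`, for instance for the two cubes themselves (`b = 0` and `b = 1`), and uniformly for all shifts
`b ≤ N` but for a proportion of at most `ε`: it is only required that the sum of `1 / p` over the primes `w < p ≤ y` which
divide `3 b ^ 2 - 3 b + 1` is small. A condition of this kind is needed, for a prime `p ≤ y` with `p ∣ 3 b ^ 2 - 3 b + 1` never
divides `k + b`. In particular the Liouville function `λ (k + b)` takes the values `1` and `-1` asymptotically equally often.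

Proof. Let `f` be the difference of the indicator function of the first set and of the indicator function of the second
one, multiplied by the product of `1 - ρ (p) / p` over the primes `w < p ≤ y`. Katai's method in a weighted form, uniformly
for all polynomials of bounded degree with coefficients bounded by a power of `N`: the inequality of Turan and Kubilius for
the two sets (fundamental lemma of the sieve), and then the bilinear sums over `f (p m - b) f (q m - b)` for two large primes
`p ≠ q`, which are bounded by the fundamental lemma for the product of the two polynomials; their singular series are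
estimated on average over `p` and `q` with resultants and the inequality of Brun and Titchmarsh.
-/

namespace Pool.Agent.Results.MP_22d6bb_nt.MultiplicativeNeighbours

open Finset Filter

open Classical in
/-- The integers `1 ≤ k ≤ N` for which all prime factors of `3 k ^ 2 + 3 k + 1` are larger than `y`. -/
noncomputable def rough (y N : ℕ) : Finset ℕ :=
  (Icc 1 N).filter (fun k => ∀ p : ℕ, p.Prime → p ∣ 3 * k ^ 2 + 3 * k + 1 → y < p)

/-- The product over the primes `p ≤ y` of `1 - ρ (p) / p`, where `ρ (p)` is the number of the residue classes `k` modulo `p`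
with `p ∣ 3 k ^ 2 + 3 k + 1`. -/
noncomputable def V (y : ℕ) : ℝ := ∏ p ∈ (range (y + 1)).filter Nat.Prime,
  (1 - (((range p).filter (fun k => p ∣ 3 * k ^ 2 + 3 * k + 1)).card : ℝ) / p)

/-- The mean value of a function over a finite set. -/
noncomputable def mean (S : Finset ℕ) (g : ℕ → ℂ) : ℂ := (∑ n ∈ S, g n) / (S.card : ℂ)

open Classical in
/-- The sum of `1 / p` over the primes `w < p ≤ y` which divide `3 b ^ 2 - 3 b + 1`. -/
noncomputable def defect (b w y : ℕ) : ℝ :=
  ∑ p ∈ (Ioc w y).filter (fun p : ℕ => p.Prime ∧ (p : ℤ) ∣ 3 * (b : ℤ) ^ 2 - 3 * b + 1), 1 / (p : ℝ)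

open Pool.Agent.H31 Polynomial

/-- the polynomial -/
noncomputable def cub : ℤ[X] := C 3 * X ^ 2 + C 3 * X + C 1

lemma RF_cub (p n : ℕ) : GP.RF cub p n ↔ p ∣ 3 * n ^ 2 + 3 * n + 1 := by
  unfold GP.RF cub
  simp only [eval_add, eval_mul, eval_C, eval_pow, eval_X]
  rw [← Int.natCast_dvd_natCast]
  push_cast
  rfl

lemma eval_cub (b : ℕ) : cub.eval (-(b : ℤ)) = 3 * (b : ℤ) ^ 2 - 3 * b + 1 := by
  unfold cub
  simp only [eval_add, eval_mul, eval_C, eval_pow, eval_X]
  ring

lemma eval_cub_ne (b : ℕ) : cub.eval (-(b : ℤ)) ≠ 0 := by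
  rw [eval_cub]
  intro h
  omega

lemma cub_deg : cub.natDegree ≤ 2 := by
  unfold cub
  compute_degree

lemma sys_cub : GP.Sys cub 2 := by
  refine ⟨cub_deg, fun p hp => ⟨0, ?_⟩⟩
  rw [RF_cub]
  intro h
  simp at h
  exact hp.one_lt.ne' h

lemma coeff_cub (i : ℕ) : |cub.coeff i| ≤ 3 := by
  unfold cub
  rw [coeff_add, coeff_add, coeff_C_mul, coeff_C_mul, coeff_X_pow, coeff_X, coeff_C]
  rcases i with _ | _ | _ | i <;> simp

lemma rough_eq (y N : ℕ) : rough y N = GP.roughI cub y (Icc 1 N) := by
  classical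
  unfold rough GP.roughI
  apply filter_congr
  intro k _
  simp only [RF_cub]

lemma V_eq (y : ℕ) : V y = GP.V cub y := by
  classical
  unfold V GP.V
  have e : (range (y + 1)).filter Nat.Prime = Pool.Agent.H373R2.T7.pz y := by
    ext p
    rw [mem_filter, mem_range, Pool.Agent.H373R2.T7.mem_pz, Nat.lt_succ_iff]
  rw [e]
  apply prod_congr rfl
  intro p _
  unfold GP.rh
  congr 4
  ext k
  rw [mem_filter, mem_range, GP.mem_ZF, RF_cub, one_mul, add_zero]

lemma defect_eq (b w y : ℕ) : defect b w y = GP.hb cub b w y := by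
  classical
  unfold defect GP.hb
  apply sum_congr _ fun _ _ => rfl
  ext p
  rw [mem_filter, mem_filter, mem_Ioc, MF.mem_mid, eval_cub]
  tauto

theorem result :
    (∀ ε : ℝ, 0 < ε → ∃ w₀ : ℕ, ∀ w : ℕ, w₀ ≤ w → ∃ (r : ℕ) (δ : ℝ), 0 < δ ∧ ∀ᶠ N : ℕ in atTop, ∀ y : ℕ, w ≤ y → y ^ r ≤ N →
      |((rough y N).card : ℝ) - N * V y| ≤ ε * (N * V y) ∧
      (((range (N + 1)).filter (fun b => ¬ defect b w y ≤ δ)).card : ℝ) ≤ ε * (N + 1) ∧
      ∀ b : ℕ, b ≤ N → defect b w y ≤ δ →
        (∀ z : ℕ, w ≤ z → z ≤ y → ∀ g : ℕ → ℂ, (∀ n, ‖g n‖ ≤ 1) → (∀ m n : ℕ, m.Coprime n → g (m * n) = g m * g n) →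
          ‖mean (rough y N) (fun k => g (k + b)) - mean (rough z N) (fun k => g (k + b))‖ ≤ ε) ∧
        ‖mean (rough y N) (fun k => (-1) ^ ArithmeticFunction.cardFactors (k + b))‖ ≤ ε) ∧
    (∀ b w y : ℕ, 3 * b ^ 2 + 1 ≤ w + 3 * b → defect b w y = 0) ∧
    (∀ j y N : ℕ, 2 * (N + 1) ≤ (y + 1) ^ j → ∀ k ∈ rough y N, (3 * k ^ 2 + 3 * k + 1).primeFactorsList.length < 2 * j) := by
  classical
  refine ⟨?_, ?_, ?_⟩
  · intro ε hε
    obtain ⟨w0, hw04, h⟩ := GP.multCor2 2 1 (by norm_num) ε hε
    refine ⟨w0, fun w hw => ?_⟩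
    obtain ⟨r, δ, hr, hδ, hmain⟩ := h w hw
    refine ⟨r, δ, hδ, ?_⟩
    filter_upwards [hmain, eventually_ge_atTop 3] with N h1 hN y hwy hyr
    have hc : ∀ i, |cub.coeff i| ≤ (N : ℤ) ^ 1 := by
      intro i
      refine (coeff_cub i).trans ?_
      rw [pow_one]
      exact_mod_cast hN
    have hyN : y ≤ N := by
      have : y ^ 1 ≤ y ^ r := Nat.pow_le_pow_right (by omega) hr
      rw [pow_one] at this
      exact this.trans hyr
    obtain ⟨k1, k2, k3⟩ := h1 cub sys_cub hc y hwy hyr
    simp only [← rough_eq, ← V_eq, ← defect_eq] at k1 k2 k3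
    refine ⟨k1, ?_, ?_⟩
    · have := k2 (N + 1) (by omega)
      push_cast at this
      convert this using 3
    · intro b hb hd
      exact k3 b hb (eval_cub_ne b) hd
  · intro b w y hb
    unfold defect
    apply sum_eq_zero
    intro p hp
    exfalso
    rw [mem_filter, mem_Ioc] at hp
    obtain ⟨⟨h1, -⟩, -, h2⟩ := hp
    have h3 := Int.le_of_dvd (by nlinarith [sq_nonneg ((b : ℤ) - 1), sq_nonneg (b : ℤ)]) h2
    have h4 : (3 * (b : ℤ) ^ 2 + 1) ≤ w + 3 * b := by exact_mod_cast hb
    have h5 : (w : ℤ) < p := by exact_mod_cast h1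
    linarith
  · intro j y N hj k hk
    unfold rough at hk
    rw [mem_filter, mem_Icc] at hk
    obtain ⟨⟨-, hkN⟩, hk2⟩ := hk
    have h1 : (y + 1) ^ (3 * k ^ 2 + 3 * k + 1).primeFactorsList.length ≤ 3 * k ^ 2 + 3 * k + 1 := by
      conv_rhs => rw [← Nat.prod_primeFactorsList (show 3 * k ^ 2 + 3 * k + 1 ≠ 0 by omega)]
      apply List.pow_card_le_prod
      intro p hp
      exact hk2 p (Nat.prime_of_mem_primeFactorsList hp) (Nat.dvd_of_mem_primeFactorsList hp)
    by_contra h
    push Not at h
    have h2 : (y + 1) ^ (2 * j) ≤ 3 * k ^ 2 + 3 * k + 1 := le_trans (Nat.pow_le_pow_right (by omega) h) h1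
    have h3 : 2 * (k + 1) ≤ (y + 1) ^ j := by omega
    have h4 : (2 * (k + 1)) ^ 2 ≤ ((y + 1) ^ j) ^ 2 := Nat.pow_le_pow_left h3 2
    have h5 : ((y + 1) ^ j) ^ 2 = (y + 1) ^ (2 * j) := by rw [← pow_mul, mul_comm]
    nlinarith

end Pool.Agent.Results.MP_22d6bb_nt.MultiplicativeNeighbours
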